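import Pool.Agent.TH817.Z3.F3

/-!
# Restricted denominators and `ζ(3)`: a variant of the list of cells

In `cells` the cells up to `4` are full, in `cells45` those up to `9/2`.
-/

set_option autoImplicit false

open Pool.Agent.TH817.Z3

namespace Pool.Agent.TH896.Z3R

/-- the cells up to `4` -/
def base : List Cell := cells.take 3191

/-- the last cells of `cells45` -/
def tail45 : List Cell := [
⟨4, 1, 17, 4, true, false, 0, [17, 1, 2, 6, 7, 16, 8]⟩,
⟨17, 4, 9, 2, true, false, 0, [1, 2, 6, 7, 16, 8, 17]⟩,
⟨9, 2, 5, 1, false, true, 0, [1, 2, 6, 16, 7, 17, 8]⟩,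
⟨5, 1, 11, 2, false, false, 0, [1, 2, 16, 6, 17, 7, 8]⟩,
⟨11, 2, 6, 1, false, false, 0, [1, 2, 16, 17, 6, 7, 8]⟩]

/-- the cells up to `9/2` are full -/
def cells45 : List Cell := base ++ tail45

theorem full40 : cells.all (fun c => c.full || decide (4 * c.v0 ≤ 1 * c.u0)) = true := by
  decide +kernel

theorem full45 : cells45.all (fun c => c.full || decide (9 * c.v0 ≤ 2 * c.u0)) = true := by
  decide +kernel

theorem chk45 : PMchk 1 80 cells45 = true := by
  decide +kernel

theorem base_all (f : Cell → Bool) (h : cells.all f = true) : base.all f = true := by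
  rw [List.all_eq_true] at h ⊢
  exact fun c hc => h c (List.mem_of_mem_take hc)

theorem tail45_ok : tail45.all Cell.ok = true := by
  decide +kernel

theorem ok45 : cells45.all Cell.ok = true := by
  unfold cells45
  rw [List.all_append, base_all _ E5_ok, tail45_ok]
  rfl

theorem pos45 : cells45.all (fun c => decide (0 < c.v0) && decide (0 < c.v1)) = true := by
  unfold cells45
  rw [List.all_append, base_all _ F3_pos]
  rfl

theorem base_sum : (base.map Cell.limI).sum ≤ 9008500000 := by
  decide +kernel

theorem tail45_sum : (tail45.map Cell.limI).sum ≤ 1750000010 := by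
  decide +kernel

theorem total45 : (cells45.map Cell.lim).sum ≤ 10759 / 1000 := by
  refine (F3_list cells45 pos45).trans ?_
  have h0 : (cells45.map Cell.limI).sum ≤ 10759000000 := by
    unfold cells45
    rw [List.map_append, List.sum_append]
    have h1 := base_sum
    have h2 := tail45_sum
    linarith
  have h : (((cells45.map Cell.limI).sum : ℤ) : ℚ) ≤ ((10759000000 : ℤ) : ℚ) := by
    exact_mod_cast h0
  rw [div_le_iff₀ (by norm_num)]
  refine h.trans ?_
  norm_num

end Pool.Agent.TH896.Z3R
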