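import Pool.Agent.TH896.Z3R.Main
import Pool.Agent.TH896.Z3R.Cells2
import Pool.Agent.Cov.PNT

/-!
# Restricted denominators and `ζ(3)`: conclusions
-/

set_option autoImplicit false

open Pool.Agent.H337R2 Filter Topology Pool.Agent.TH817.Z3

namespace Pool.Agent.TH896.Z3R

noncomputable section

lemma G_dvd_mul (y b t : ℕ) : G y b ∣ G y (b * t) :=
  Nat.gcd_dvd_gcd_of_dvd_left _ (Dvd.intro _ rfl)

lemma two_part (y k : ℕ) : Nat.gcd (2 ^ k) (primorial y ^ 3) ≤ 8 := by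
  obtain ⟨j, -, hj⟩ := (Nat.dvd_prime_pow Nat.prime_two).1 (Nat.gcd_dvd_left (2 ^ k) (primorial y ^ 3))
  rw [hj]
  have h1 : 2 ^ j ∣ primorial y ^ 3 := hj ▸ Nat.gcd_dvd_right (2 ^ k) (primorial y ^ 3)
  have h2 := (Nat.prime_two.pow_dvd_iff_le_factorization
    (pow_ne_zero 3 (primorial_ne_zero y))).1 h1
  have h3 := cube_fac y 2
  calc 2 ^ j ≤ 2 ^ 3 := Nat.pow_le_pow_right (by norm_num) (h2.trans h3)
    _ = 8 := by norm_num

lemma G_mul_le (y b k : ℕ) : G y (b * 2 ^ k) ≤ 8 * G y b := by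
  have h1 : G y (b * 2 ^ k) ∣ G y b * Nat.gcd (2 ^ k) (primorial y ^ 3) := by
    unfold G
    rw [Nat.gcd_comm (b * 2 ^ k), Nat.gcd_comm b, Nat.gcd_comm (2 ^ k)]
    exact Nat.gcd_mul_right_dvd_mul_gcd _ _ _
  have h2 := Nat.le_of_dvd (Nat.mul_pos (G_pos y b) (Nat.gcd_pos_of_pos_right _
    (pow_pos (primorial_pos y) 3))) h1
  calc G y (b * 2 ^ k) ≤ G y b * Nat.gcd (2 ^ k) (primorial y ^ 3) := h2
    _ ≤ G y b * 8 := Nat.mul_le_mul_left _ (two_part y k)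
    _ = 8 * G y b := mul_comm _ _

/-- the main inequality, as a statement -/
def StM (s μ : ℝ) : Prop := ∃ c : ℝ, 0 < c ∧ ∀ (a : ℤ) (b y : ℕ), 1 ≤ b →
    c / (M s y b) ^ μ ≤ |zr 3 - (a : ℝ) / b|

/-- **the main inequality** -/
theorem main {s μ : ℝ} (hs : 0 < s) (hμ : 0 < μ)
    (hl : ∃ M0 : ℝ, 1 ≤ M0 ∧ ∀ (a : ℤ) (b y : ℕ), 1 ≤ b → M0 ≤ M s y b →
      ((M s y b) ^ μ)⁻¹ < |zr 3 - (a : ℝ) / b|) : StM s μ := by
  obtain ⟨M0, hM0, h⟩ := hl
  obtain ⟨k, hk⟩ := pow_unbounded_of_one_lt (8 * M0) (by norm_num : (1 : ℝ) < 2)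
  have h2k : (0 : ℝ) < 2 ^ k := by positivity
  refine ⟨(((2 : ℝ) ^ k) ^ μ)⁻¹, by positivity, fun a b y hb => ?_⟩
  have hbR : (1 : ℝ) ≤ b := by exact_mod_cast hb
  have hGb : G y b ≤ b := Nat.le_of_dvd (by omega) (Nat.gcd_dvd_left _ _)
  have hG0 : (0 : ℝ) < (G y b : ℝ) := by exact_mod_cast G_pos y b
  have hG0' : (0 : ℝ) < (G y (b * 2 ^ k) : ℝ) := by exact_mod_cast G_pos y (b * 2 ^ k)
  have hGbR : (G y b : ℝ) ≤ b := by exact_mod_cast hGb
  have hG8 : (G y (b * 2 ^ k) : ℝ) ≤ 8 * G y b := by exact_mod_cast G_mul_le y b k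
  have hG1 : (G y b : ℝ) ≤ (G y (b * 2 ^ k) : ℝ) := by
    exact_mod_cast Nat.le_of_dvd (G_pos _ _) (G_dvd_mul y b (2 ^ k))
  have hM1 : M0 ≤ M s y (b * 2 ^ k) := by
    refine le_trans ?_ (le_max_left _ _)
    rw [le_div_iff₀ hG0']
    push_cast
    calc M0 * (G y (b * 2 ^ k) : ℝ) ≤ M0 * (8 * G y b) :=
          mul_le_mul_of_nonneg_left hG8 (by linarith)
      _ = (8 * M0) * G y b := by ring
      _ ≤ 2 ^ k * b := mul_le_mul hk.le hGbR hG0.le h2k.le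
      _ = b * 2 ^ k := mul_comm _ _
  have hM2 : M s y (b * 2 ^ k) ≤ 2 ^ k * M s y b := by
    unfold M
    refine max_le ?_ ?_
    · refine le_trans ?_ (mul_le_mul_of_nonneg_left (le_max_left _ _) h2k.le)
      push_cast
      rw [div_le_iff₀ hG0']
      have h1 : (b : ℝ) / (G y b : ℝ) * (G y b : ℝ) = b := by field_simp
      calc (b : ℝ) * 2 ^ k = 2 ^ k * ((b : ℝ) / (G y b : ℝ) * (G y b : ℝ)) := by rw [h1]; ring
        _ ≤ 2 ^ k * ((b : ℝ) / (G y b : ℝ) * (G y (b * 2 ^ k) : ℝ)) := by gcongr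
        _ = _ := by ring
    · refine le_trans ?_ (mul_le_mul_of_nonneg_left (le_max_right _ _) h2k.le)
      have h1 : (1 : ℝ) ≤ 2 ^ k := one_le_pow₀ (by norm_num)
      exact le_mul_of_one_le_left (Real.exp_pos _).le h1
  have h3 := h (a * 2 ^ k) (b * 2 ^ k) y (Nat.mul_pos hb (by positivity)) hM1
  have hMp : 0 < M s y b := lt_of_lt_of_le one_pos (M_ge_one hs y b)
  have hMp' : 0 < M s y (b * 2 ^ k) := lt_of_lt_of_le one_pos (M_ge_one hs y _)
  have e1 : (((a * 2 ^ k : ℤ)) : ℝ) / ((b * 2 ^ k : ℕ) : ℝ) = (a : ℝ) / b := by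
    push_cast
    rw [mul_div_mul_right _ _ h2k.ne']
  rw [e1] at h3
  refine le_trans ?_ h3.le
  have h4 : (M s y (b * 2 ^ k)) ^ μ ≤
      ((2 : ℝ) ^ k) ^ μ * (M s y b) ^ μ := by
    rw [← Real.mul_rpow h2k.le hMp.le]
    exact Real.rpow_le_rpow hMp'.le hM2 hμ.le
  have h5 : 0 < (M s y (b * 2 ^ k)) ^ μ := Real.rpow_pos_of_pos hMp' _
  calc (((2 : ℝ) ^ k) ^ μ)⁻¹ / (M s y b) ^ μ
      = (((2 : ℝ) ^ k) ^ μ * (M s y b) ^ μ)⁻¹ := by
        rw [mul_inv, div_eq_mul_inv]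
    _ ≤ _ := inv_anti₀ h5 h4

theorem M40 : StM (5 / 3) (468 / 100) :=
  main (by norm_num) (by norm_num) (large_den (κ := 31078 / 1000) (A := 26596 / 1000)
    (c := 66415 / 10000) (tn := 4) (td := 1)
    (by norm_num) (by norm_num) (by norm_num) (by norm_num) (by norm_num) (by norm_num) (by norm_num)
    (by norm_num) Pool.Agent.TH250.Z3.AM
    (P_restr cells E5_chk E5_ok (10009 / 1000) F3_total 4 1 (by norm_num) (by norm_num) full40)
    hPl hH6 Pool.Agent.TH986.Z3.Z1)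

theorem M45 : StM (14 / 10) (496 / 100) :=
  main (by norm_num) (by norm_num) (large_den (κ := 31078 / 1000) (A := 26596 / 1000)
    (c := 62669 / 10000) (tn := 9) (td := 2)
    (by norm_num) (by norm_num) (by norm_num) (by norm_num) (by norm_num) (by norm_num) (by norm_num)
    (by norm_num) Pool.Agent.TH250.Z3.AM
    (P_restr cells45 chk45 ok45 (10759 / 1000) total45 9 2 (by norm_num) (by norm_num) full45)
    hPl hH6 Pool.Agent.TH986.Z3.Z1)

/-- denominators divisible by the cube of the product of the primes up to `θ log q` -/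
theorem expo {s μ₀ : ℝ} (hs : 0 < s) (hμ₀ : 0 < μ₀) (hM : StM s μ₀) (θ μ : ℝ) (h0 : 0 ≤ θ)
    (h1 : (3 + s) * θ ≤ 1) (hμ : μ₀ * (1 - 3 * θ) < μ) :
    ∃ Q : ℕ, ∀ (a : ℤ) (q : ℕ), Q ≤ q → primorial ⌊θ * Real.log q⌋₊ ^ 3 ∣ q →
      (q : ℝ) ^ (-μ) < |zr 3 - (a : ℝ) / q| := by
  obtain ⟨c, hc, h⟩ := hM
  -- `δ`
  set δ : ℝ := (μ - μ₀ * (1 - 3 * θ)) / (2 * μ₀ + 2) with hδ
  have hδ0 : 0 < δ := by
    rw [hδ]
    exact div_pos (by linarith) (by linarith)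
  have hδ1 : μ = μ₀ * (1 - 3 * θ) + (2 * μ₀ + 2) * δ := by
    rw [hδ]
    field_simp
    ring
  -- `log G ≥ (3 θ - δ) log q`
  have hG : ∀ᶠ q : ℕ in atTop, 3 * θ * Real.log q - δ * Real.log q ≤
      3 * Chebyshev.theta (θ * Real.log q) := by
    rcases h0.eq_or_lt with h00 | h00
    · filter_upwards [eventually_ge_atTop 1] with q hq
      rw [← h00]
      have h2 : (1 : ℝ) ≤ q := by exact_mod_cast hq
      have h3 := Real.log_nonneg h2
      rw [zero_mul, Chebyshev.theta_zero]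
      nlinarith
    · have ht : Tendsto (fun q : ℕ => θ * Real.log q) atTop atTop :=
        (Real.tendsto_log_atTop.comp tendsto_natCast_atTop_atTop).const_mul_atTop h00
      have h2 := (Pool.Agent.Cov.PNT.theta_div_tendsto.comp ht).eventually_const_lt
        (show 1 - δ / (3 * θ) < 1 by
          have : 0 < δ / (3 * θ) := by positivity
          linarith)
      filter_upwards [h2, ht.eventually_gt_atTop 0] with q h3 h4
      simp only [Function.comp] at h3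
      rw [lt_div_iff₀ h4] at h3
      have e : (1 - δ / (3 * θ)) * (θ * Real.log q) = θ * Real.log q - δ / 3 * Real.log q := by
        field_simp
      rw [e] at h3
      linarith
  have hlog : ∀ᶠ q : ℕ in atTop, -Real.log c < δ * Real.log q :=
    ((Real.tendsto_log_atTop.comp tendsto_natCast_atTop_atTop).const_mul_atTop hδ0).eventually_gt_atTop _
  obtain ⟨Q, hQ⟩ := eventually_atTop.1 (hG.and (hlog.and (eventually_ge_atTop 2)))
  refine ⟨Q, fun a q hq hdvd => ?_⟩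
  obtain ⟨g1, g2, g3⟩ := hQ q hq
  have hq1 : (1 : ℝ) < q := by exact_mod_cast (by omega : 1 < q)
  have hq0 : (0 : ℝ) < q := by linarith
  have hlq : 0 < Real.log q := Real.log_pos hq1
  have hGe : G ⌊θ * Real.log q⌋₊ q = primorial ⌊θ * Real.log q⌋₊ ^ 3 := Nat.gcd_eq_right hdvd
  have hlG : Real.log (G ⌊θ * Real.log q⌋₊ q : ℝ) = 3 * Chebyshev.theta (θ * Real.log q) := by
    rw [hGe, Chebyshev.theta_eq_log_primorial]
    push_cast
    rw [Real.log_pow]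
    norm_num
  have hM : M s ⌊θ * Real.log q⌋₊ q ≤ Real.exp ((1 - 3 * θ + δ) * Real.log q) := by
    unfold M
    refine max_le ?_ ?_
    · have hG0 : (0 : ℝ) < (G ⌊θ * Real.log q⌋₊ q : ℝ) := by exact_mod_cast G_pos _ _
      rw [← Real.log_le_iff_le_exp (by positivity), Real.log_div hq0.ne' hG0.ne', hlG]
      linarith
    · apply Real.exp_le_exp.2
      have h2 : (⌊θ * Real.log q⌋₊ : ℝ) ≤ θ * Real.log q := Nat.floor_le (by positivity)
      calc s * (⌊θ * Real.log q⌋₊ : ℝ) ≤ s * (θ * Real.log q) :=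
            mul_le_mul_of_nonneg_left h2 hs.le
        _ = (s * θ) * Real.log q := by ring
        _ ≤ (1 - 3 * θ + δ) * Real.log q := by
            apply mul_le_mul_of_nonneg_right _ hlq.le
            linarith
  have h2 := h a q ⌊θ * Real.log q⌋₊ (by omega)
  refine lt_of_lt_of_le ?_ h2
  have hMp : 0 < M s ⌊θ * Real.log q⌋₊ q := lt_of_lt_of_le one_pos (M_ge_one hs _ _)
  have h3 : (M s ⌊θ * Real.log q⌋₊ q) ^ μ₀ ≤
      Real.exp ((μ₀ * (1 - 3 * θ) + μ₀ * δ) * Real.log q) := by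
    refine (Real.rpow_le_rpow hMp.le hM hμ₀.le).trans (le_of_eq ?_)
    rw [← Real.exp_mul]
    congr 1
    ring
  rw [lt_div_iff₀ (Real.rpow_pos_of_pos hMp _)]
  calc (q : ℝ) ^ (-μ) * (M s ⌊θ * Real.log q⌋₊ q) ^ μ₀
      ≤ (q : ℝ) ^ (-μ) * Real.exp ((μ₀ * (1 - 3 * θ) + μ₀ * δ) * Real.log q) := by
        gcongr
    _ = Real.exp ((-μ + μ₀ * (1 - 3 * θ) + μ₀ * δ) * Real.log q) := by
        rw [Real.rpow_def_of_pos hq0, ← Real.exp_add]
        congr 1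
        ring
    _ < c := by
        rw [← Real.lt_log_iff_exp_lt hc]
        have h4 : -μ + μ₀ * (1 - 3 * θ) + μ₀ * δ = -((μ₀ + 2) * δ) := by rw [hδ1]; ring
        rw [h4]
        nlinarith [mul_pos (mul_pos hμ₀ hδ0) hlq, mul_pos hδ0 hlq]

end

end Pool.Agent.TH896.Z3R
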