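import Pool.Agent.TH817.Z3.C2
import Pool.Agent.TH817.Z3.D3
import Pool.Agent.TH817.Z3.E4
import Pool.Agent.TH615.Z3.D4

/-!
# Restricted denominators and `ζ(3)`: the `p`-adic size of the determinant when `p ^ a` divides the
denominator, `a ≤ 3`

The four estimates of the library `TH817.Z3` with the gain `p ^ (-a)` in each row.
-/

set_option autoImplicit false

open Polynomial Pool.Agent.H337R2 Pool.Agent.TH817.Z3

namespace Pool.Agent.TH896.Z3R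

noncomputable section

/-- local bound, general poles, with gain -/
theorem C2R (h1 : StC1) {n p : ℕ} [Fact p.Prime] (hn : 1 ≤ n) (hp2 : 9 * n < p ^ 2) (q : ℕ) (x : ℚ)
    (hx : QI q x) (a : ℕ) (ha : a ≤ 3) (hpq : p ^ a ∣ q) (E : ℚ[X]) (W : ℚ) (hW : 0 ≤ W) (A : ℕ → ℚ)
    (hA : ∀ k, 0 ≤ A k) (hE : ∀ k ∈ sF n, PB p (p : ℚ) (A k) (TS (-(k : ℚ)) E))
    (h : ∀ k ∈ sF n, (p : ℚ) ^ (1 - eF n p k) * A k ≤ W) :
    padicNorm p ((q : ℚ) * xf n x (PF n * E)) ≤ (p : ℚ) ^ (-(a : ℤ)) * W := by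
  have hpp : 0 < p := (Fact.out : p.Prime).pos
  have hp0 : (p : ℚ) ≠ 0 := by exact_mod_cast hpp.ne'
  have hp1 : (1 : ℚ) ≤ p := by exact_mod_cast hpp
  have hpz : ∀ z : ℤ, (0 : ℚ) ≤ (p : ℚ) ^ z := fun z => zpow_nonneg (by positivity) z
  have hW' : 0 ≤ (p : ℚ) ^ (-(a : ℤ)) * W := mul_nonneg (hpz _) hW
  have ha' : (a : ℤ) ≤ 3 := by exact_mod_cast ha
  have key1 : ∀ k ∈ sF n, padicNorm p (pa (sF n) (mF n) (PF n * E) k 2) ≤
      (p : ℚ) ^ (-(a : ℤ)) * W := by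
    intro k hk
    refine (h1 hn hp2 E hk (A k) (hA k) (hE k hk) 2).trans ?_
    refine le_trans ?_ (mul_le_mul_of_nonneg_left (h k hk) (hpz (-(a : ℤ))))
    rw [← mul_assoc, ← zpow_add₀ hp0]
    apply mul_le_mul_of_nonneg_right _ (hA k)
    apply zpow_le_zpow_right₀ hp1
    push_cast
    linarith
  have key2 : ∀ i j : ℕ, j ≤ i + 1 → ∀ k ∈ sF n,
      padicNorm p (pa (sF n) (mF n) (PF n * E) k i) * padicNorm p (hs j (k - 3 * n - 1)) ≤ W := by
    intro i j hij k hk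
    have hkI := Finset.mem_Icc.1 hk
    have hpa := h1 hn hp2 E hk (A k) (hA k) (hE k hk) i
    have h4 := hs_norm_med (p := p) j (k - 3 * n - 1) (by omega)
    refine (mul_le_mul hpa h4 (padicNorm.nonneg _)
      (mul_nonneg (hpz _) (hA k))).trans (le_trans ?_ (h k hk))
    rw [← zpow_natCast (p : ℚ) j, mul_right_comm, ← zpow_add₀ hp0]
    apply mul_le_mul_of_nonneg_right _ (hA k)
    apply zpow_le_zpow_right₀ hp1
    have : (j : ℤ) ≤ i + 1 := by exact_mod_cast hij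
    linarith
  have hnat : ∀ m : ℕ, padicNorm p (m : ℚ) ≤ 1 := fun m => padicNorm.of_nat m
  have h2' : padicNorm p (2 : ℚ) ≤ 1 := by exact_mod_cast hnat 2
  have hq : padicNorm p (q : ℚ) ≤ (p : ℚ) ^ (-(a : ℤ)) := by
    have h5 : ((p ^ a : ℕ) : ℤ) ∣ (q : ℤ) := by exact_mod_cast hpq
    have h6 := (padicNorm.dvd_iff_norm_le (p := p) (n := a) (z := (q : ℤ))).1 h5
    rwa [Int.cast_natCast] at h6
  have e : (q : ℚ) * xf n x (PF n * E) = (2 * ((q : ℚ) * x)) * rho n (PF n * E) -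
      (q : ℚ) * h3 n (PF n * E) := by
    unfold xf
    ring
  rw [e]
  refine padicNorm.sub.trans (max_le ?_ ?_)
  · refine C.C2_mul1 (C.C2_mul1 h2' (C.C2_int hx)) ?_
    unfold rho
    apply padicNorm.sum_le' _ hW'
    intro k hk
    exact key1 k hk
  · rw [padicNorm.mul]
    refine mul_le_mul hq ?_ (padicNorm.nonneg _) (hpz _)
    unfold h3
    apply padicNorm.sum_le' _ hW
    intro k hk
    refine padicNorm.nonarchimedean.trans (max_le ?_ ?_)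
    · rw [mul_assoc]
      refine C.C2_mul1 h2' ?_
      rw [padicNorm.mul]
      exact key2 2 3 (by omega) k hk
    · rw [padicNorm.mul]
      exact key2 1 2 (by omega) k hk

/-- the determinant, all classes charged, with gain -/
theorem D3R (h1 : StC1) {n p : ℕ} [Fact p.Prime] (hn : 1 ≤ n) (hp2 : 9 * n < p ^ 2) (q : ℕ) (x : ℚ)
    (hx : QI q x) (a : ℕ) (ha : a ≤ 3) (hpq : p ^ a ∣ q) (m : ℕ) (μ : ℤ) :
    padicNorm p ((q : ℚ) ^ m * DET n x m) ≤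
      (p : ℚ) ^ ((m : ℤ) * μ + ∑ κ ∈ Finset.range p, TT (1 - eF n p κ - μ) - (m : ℤ) * a) := by
  classical
  have hpp : p.Prime := Fact.out
  have hp0 : (0 : ℚ) < p := by exact_mod_cast hpp.pos
  have hp1 : (1 : ℚ) ≤ p := by exact_mod_cast hpp.one_le
  obtain ⟨κ, s, hs1, hs2, hs3, -⟩ := D.D3_pick2 (Finset.range p) ∅ (Finset.disjoint_empty_right _)
    (fun k => 1 - eF n p k) μ m
  rw [Finset.sum_empty, add_zero] at hs2
  have hcard : ∀ κ0 ∈ Finset.range p, ∀ i, ((Finset.range i).filter fun l => κ l = κ0).card ≤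
      ((Finset.range i).filter fun l => κ l % p = κ0).card := by
    intro κ0 hκ0 i
    apply Finset.card_le_card
    intro l hl
    rw [Finset.mem_filter] at hl ⊢
    refine ⟨hl.1, ?_⟩
    rw [hl.2]
    exact Nat.mod_eq_of_lt (Finset.mem_range.1 hκ0)
  have hmat : padicNorm p (Matrix.of fun i j : Fin m =>
      (q : ℚ) * NL n x (Pool.Agent.LZ.D3_ND κ i * Pool.Agent.LZ.D3_ND κ j)).det ≤
      ∏ i ∈ Finset.range m, (p : ℚ) ^ (s i - a) := by
    refine Pool.Agent.H336R2.HD.A3_padic_det p m _ (fun i => (p : ℚ) ^ (s i - a))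
      (fun i => by positivity) fun i j => ?_
    rw [Matrix.of_apply, NL_apply]
    have hW : padicNorm p ((q : ℚ) * xf n x (PF n *
        (Pool.Agent.LZ.D3_ND κ i * Pool.Agent.LZ.D3_ND κ j))) ≤
        (p : ℚ) ^ (-(a : ℤ)) * (p : ℚ) ^ ((s i + s j) / 2) := by
      refine C2R h1 hn hp2 q x hx a ha hpq _ ((p : ℚ) ^ ((s i + s j) / 2)) (by positivity)
        (fun k => (p : ℚ)⁻¹ ^ ((Finset.range i.1).filter fun l => κ l % p = k % p).card *
          (p : ℚ)⁻¹ ^ ((Finset.range j.1).filter fun l => κ l % p = k % p).card)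
        (fun k => by positivity) (fun k hk => D.NN_PB p k κ i.1 j.1) (fun k hk => ?_)
      have hzp : ∀ (z : ℤ) (a b : ℕ), (p : ℚ) ^ z * ((p : ℚ)⁻¹ ^ a * (p : ℚ)⁻¹ ^ b) =
          (p : ℚ) ^ (z - a - b : ℤ) := by
        intro z a b
        rw [zpow_sub₀ hp0.ne', zpow_sub₀ hp0.ne', zpow_natCast, zpow_natCast,
          inv_pow, inv_pow, div_eq_mul_inv, div_eq_mul_inv, mul_assoc]
      have hkm : k % p ∈ Finset.range p := Finset.mem_range.2 (Nat.mod_lt _ hpp.pos)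
      have h2 := hs3 _ hkm i
      have h3 := hs3 _ hkm j
      have h4 := hcard _ hkm i.1
      have h5 := hcard _ hkm j.1
      simp only [D.eF_mod] at h2 h3
      rw [hzp]
      refine zpow_le_zpow_right₀ hp1 ?_
      omega
    calc padicNorm p ((q : ℚ) * xf n x (PF n *
          (Pool.Agent.LZ.D3_ND κ i * Pool.Agent.LZ.D3_ND κ j))) ^ 2
        ≤ ((p : ℚ) ^ (-(a : ℤ)) * (p : ℚ) ^ ((s i + s j) / 2)) ^ 2 :=
          pow_le_pow_left₀ (padicNorm.nonneg _) hW 2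
      _ = (p : ℚ) ^ ((-(a : ℤ) + (s i + s j) / 2) * 2) := by
          rw [← zpow_add₀ hp0.ne', ← zpow_natCast, ← zpow_mul]
          rfl
      _ ≤ (p : ℚ) ^ ((s i - a) + (s j - a)) := zpow_le_zpow_right₀ hp1 (by omega)
      _ = (p : ℚ) ^ (s i - a) * (p : ℚ) ^ (s j - a) := zpow_add₀ hp0.ne' _ _
  have hdet : (Matrix.of fun i j : Fin m => (q : ℚ) * NL n x
      (Pool.Agent.LZ.D3_ND κ i * Pool.Agent.LZ.D3_ND κ j)).det = (q : ℚ) ^ m * DET n x m := by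
    have h1 : (Matrix.of fun i j : Fin m => (q : ℚ) * NL n x
        (Pool.Agent.LZ.D3_ND κ i * Pool.Agent.LZ.D3_ND κ j)) =
        (q : ℚ) • (Matrix.of fun i j : Fin m => NL n x
          (Pool.Agent.LZ.D3_ND κ i * Pool.Agent.LZ.D3_ND κ j)) := by
      ext i j
      simp
    rw [h1, Matrix.det_smul, Fintype.card_fin,
      Pool.Agent.H336R2.HD.A1_det_monic (NL n x) m (Pool.Agent.LZ.D3_ND κ)
        (fun i _ => Pool.Agent.LZ.D3_ND_monic κ i)]
    rfl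
  rw [← hdet]
  refine le_trans hmat ?_
  rw [Pool.Agent.H574R2.D3.D3_prod_zpow (p : ℚ) hp0.ne' (fun i => s i - a) m]
  refine zpow_le_zpow_right₀ hp1 ?_
  rw [Finset.sum_sub_distrib, Finset.sum_const, Finset.card_range, nsmul_eq_mul]
  linarith

/-- the cell estimate for a full cell, with gain -/
theorem E4R (h1 : StC1) (hE1f : StE1) (hE2 : StE2) (c : Cell) (hc : c.ok = true)
    (hfull : c.full = true) : ∃ K0 : ℝ, ∀ n : ℕ, 1 ≤ n → ∀ p : ℕ, p.Prime →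
      9 * n < p ^ 2 → c.u0 * n < p * c.v0 → p * c.v1 ≤ c.u1 * n → ∀ (q : ℕ) (x : ℚ), QI q x →
      ∀ a : ℕ, a ≤ 3 → p ^ a ∣ q →
      ((padicNorm p ((q : ℚ) ^ (2 * n) * DET n x (2 * n)) : ℚ) : ℝ) ≤
        (p : ℝ) ^ ((c.AB.1 : ℝ) / 2 * n + c.AB.2 * p + K0 - 2 * n * a) := by
  classical
  obtain ⟨M, hM⟩ := hE2 hc
  refine ⟨((2 * TT (1 - c.e0 - c.mu) + M : ℤ) : ℝ) / 2, ?_⟩
  intro n hn p hp hp2 h0 h1' q x hx a ha hpq
  have : Fact p.Prime := ⟨hp⟩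
  have he0 := E.E4_eF0 hE1f hc hp.pos h0 h1'
  have hK := E.TT_nonneg (1 - c.e0 - c.mu)
  have hd := D3R h1 hn hp2 q x hx a ha hpq (2 * n) c.mu
  have hs := hM hn hp h0 h1' (fun κ => TT (1 - eF n p κ - c.mu)) (TT (1 - c.e0 - c.mu))
    hK (by show TT (1 - eF n p 0 - c.mu) ≤ _; rw [he0])
    (by
      intro r _ _
      have hcost : c.cost (eF n p r) ((cnt p (3 * n + 1) (17 * n / 2) r : ℕ) : ℤ)
          ((cnt p (8 * n + 1) (17 * n / 2) r : ℕ) : ℤ) = TT (1 - eF n p r - c.mu) := by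
        unfold Cell.cost
        rw [if_pos hfull]
      exact le_of_eq hcost.symm)
  have h2 : ((padicNorm p ((q : ℚ) ^ (2 * n) * DET n x (2 * n)) : ℚ) : ℝ) ≤
      (((p : ℚ) ^ (((2 * n : ℕ) : ℤ) * c.mu + ∑ κ ∈ Finset.range p, TT (1 - eF n p κ - c.mu) -
        ((2 * n : ℕ) : ℤ) * a) : ℚ) : ℝ) := by
    exact_mod_cast hd
  refine h2.trans ?_
  rw [Rat.cast_zpow, Rat.cast_natCast, ← Real.rpow_intCast]
  refine Real.rpow_le_rpow_of_exponent_le (by exact_mod_cast hp.one_lt.le) ?_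
  have h3 : (2 : ℝ) * ∑ κ ∈ Finset.range p, ((TT (1 - eF n p κ - c.mu) : ℤ) : ℝ) ≤
      (c.AB.1 - 4 * c.mu) * n + 2 * c.AB.2 * p + 2 * (TT (1 - c.e0 - c.mu) : ℤ) + M := by
    exact_mod_cast hs
  push_cast
  linarith

/-- the small primes, with gain -/
theorem D4mR (h1 : StC1) {n p : ℕ} [Fact p.Prime] (hn : 1 ≤ n) (hp2 : 14 * n < p ^ 2) (q : ℕ) (x : ℚ)
    (hx : QI q x) (a : ℕ) (ha : a ≤ 3) (hpq : p ^ a ∣ q) :
    padicNorm p ((q : ℚ) ^ (2 * n) * DET n x (2 * n)) ≤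
      ((p : ℚ) ^ (-(a : ℤ)) * (p : ℚ) ^ 3) ^ (2 * n) *
        ∏ i ∈ Finset.range (2 * n), padicNorm p ((i.factorial : ℕ) : ℚ) ^ 2 := by
  have hp : p.Prime := Fact.out
  have hp1 : (1 : ℚ) ≤ p := by exact_mod_cast hp.one_lt.le
  have hp0 : (0 : ℚ) ≤ p := by linarith
  have hPB1 : ∀ i : ℕ, i ≤ 14 * n → ∀ k : ℕ, PB p (p : ℚ) (Pool.Agent.TH615.Z3.D4f p i)
      (TS (-(k : ℚ)) (Pool.Agent.TH615.Z3.D4P i)) := by
    intro i hi k
    apply Pool.Agent.LZ.C4_PB (n := n) (p : ℚ) hp1 _ i hi k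
    intro l hl1 hl2
    have h1 := norm_small (p := p) (a := (l : ℤ)) (by omega) (by
      rw [abs_of_nonneg (by positivity)]
      have h2 : l < p ^ 2 := by omega
      exact_mod_cast h2)
    rw [Int.cast_natCast] at h1
    rw [h1]
    split_ifs
    · rw [inv_inv]
    · rw [inv_one]; exact hp1
  have hPB : ∀ i j : ℕ, i < 2 * n → j < 2 * n → ∀ k : ℕ,
      PB p (p : ℚ) (Pool.Agent.TH615.Z3.D4f p i * Pool.Agent.TH615.Z3.D4f p j)
        (TS (-(k : ℚ)) (Pool.Agent.TH615.Z3.D4P i * Pool.Agent.TH615.Z3.D4P j)) := by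
    intro i j hi hj k
    rw [map_mul]
    exact PB.mul hp0 (Pool.Agent.TH615.Z3.D4f_nonneg p i) (Pool.Agent.TH615.Z3.D4f_nonneg p j)
      (hPB1 i (by omega) k) (hPB1 j (by omega) k)
  refine Pool.Agent.TH615.Z3.D4_aux (n := n) (p := p) q x (2 * n)
    ((p : ℚ) ^ (-(a : ℤ)) * (p : ℚ) ^ 3) (by positivity) ?_
  intro i j hi hj
  have hA : 0 ≤ Pool.Agent.TH615.Z3.D4f p i * Pool.Agent.TH615.Z3.D4f p j :=
    mul_nonneg (Pool.Agent.TH615.Z3.D4f_nonneg p i) (Pool.Agent.TH615.Z3.D4f_nonneg p j)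
  rw [mul_assoc]
  apply C2R h1 hn (by omega) q x hx a ha hpq (Pool.Agent.TH615.Z3.D4P i * Pool.Agent.TH615.Z3.D4P j)
    _ (mul_nonneg (by positivity) hA)
    (fun _ => Pool.Agent.TH615.Z3.D4f p i * Pool.Agent.TH615.Z3.D4f p j) (fun _ => hA)
    (fun k _ => hPB i j hi hj k)
  intro k _
  apply mul_le_mul_of_nonneg_right _ hA
  rw [← zpow_natCast (p : ℚ) 3]
  apply zpow_le_zpow_right₀ hp1
  have := Pool.Agent.TH615.Z3.D4_eF_ge (n := n) (k := k) hp.pos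
  push_cast
  linarith

end

end Pool.Agent.TH896.Z3R
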