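import Pool.Agent.TH615.Z3.PM

/-!
# Restricted denominators and `ζ(3)`: the sum over the primes, for an arbitrary function `N`
-/

set_option autoImplicit false

open Polynomial Pool.Agent.H337R2 Filter Topology Pool.Agent.TH817.Z3 Pool.Agent.TH615.Z3

namespace Pool.Agent.TH896.Z3R

noncomputable section

/-- the sum over the large primes -/
lemma large_sum (L : List Cell) (hchk : PMchk 1 80 L = true)
    (hE5ok : L.all Cell.ok = true) (hF4 : StF4)
    (K : ℝ) (hK : 0 ≤ K) (n : ℕ) (hn : 100000 ≤ n) (N : ℕ → ℝ)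
    (hN : ∀ c ∈ L, ∀ p : ℕ, p.Prime → 9 * n < p ^ 2 → c.u0 * n < p * c.v0 →
      p * c.v1 ≤ c.u1 * n → N p ≤ ((c.AB.1 : ℝ) / 2 * n + c.AB.2 * p + K) * Real.log p) :
    ∑ p ∈ PR (1 / 80) 6 n, (N p + PMw n p) ≤
      (L.map fun c => ∑ p ∈ PR (PMlo c) (PMhi c) n,
        (((c.AB.1 : ℝ) / 2 + (c.sf.1 : ℝ)) * n + ((c.AB.2 + c.sf.2 : ℤ) : ℝ) * p) * Real.log p).sum +
      K * (Real.log 4 * (15 * n)) := by
  have hch := (PM_chain L 1 80 hchk).2 n
  have e40 : (((1 : ℕ) : ℚ) / ((80 : ℕ) : ℚ)) = 1 / 80 := by norm_num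
  rw [e40] at hch
  rw [hch]
  have h1 : (L.map fun c => ∑ p ∈ PR (PMlo c) (PMhi c) n, (N p + PMw n p)).sum ≤
      (L.map fun c => (∑ p ∈ PR (PMlo c) (PMhi c) n,
        (((c.AB.1 : ℝ) / 2 + (c.sf.1 : ℝ)) * n + ((c.AB.2 + c.sf.2 : ℤ) : ℝ) * p) * Real.log p) +
        K * ∑ p ∈ PR (PMlo c) (PMhi c) n, Real.log p).sum := by
    apply List.sum_le_sum
    intro c hc
    have hok : c.ok = true := List.all_eq_true.1 hE5ok c hc
    rw [Finset.mul_sum, ← Finset.sum_add_distrib]
    apply Finset.sum_le_sum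
    intro p hp
    obtain ⟨hpp, m1, m2⟩ := PM_mem hok hp
    have hp0 : (0 : ℝ) < p := by exact_mod_cast hpp.pos
    have hlp : 0 ≤ Real.log p := Real.log_nonneg (by exact_mod_cast hpp.one_lt.le)
    have hn40 : n < 80 * p := by
      have hmem : p ∈ PR (1 / 80) 6 n := by
        by_contra hcon
        have hG := hch (fun r => if r = p then 1 else 0)
        have z1 : ∑ r ∈ PR (1 / 80) 6 n, (if r = p then (1 : ℝ) else 0) = 0 := by
          apply Finset.sum_eq_zero
          intro r hr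
          rw [if_neg]
          rintro rfl
          exact hcon hr
        rw [z1] at hG
        have z2 : (1 : ℝ) ≤ ∑ r ∈ PR (PMlo c) (PMhi c) n, (if r = p then (1 : ℝ) else 0) := by
          have := Finset.single_le_sum (f := fun r : ℕ => if r = p then (1 : ℝ) else 0)
            (fun r _ => by split_ifs <;> norm_num) hp
          simpa using this
        have z3 := List.single_le_sum (l := L.map fun c => ∑ r ∈ PR (PMlo c) (PMhi c) n,
          (if r = p then (1 : ℝ) else 0)) (by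
            intro x hx
            obtain ⟨c', -, rfl⟩ := List.mem_map.1 hx
            exact Finset.sum_nonneg fun r _ => by split_ifs <;> norm_num) _
            (List.mem_map.2 ⟨c, hc, rfl⟩)
        linarith
      unfold PR Pool.Agent.LZ.PR at hmem
      simp only [Finset.mem_filter] at hmem
      have h3 := hmem.2.2.1
      have : (n : ℚ) < 80 * p := by linarith
      exact_mod_cast this
    have h12 : 9 * n < p ^ 2 := by nlinarith
    have h6 := hN c hc p hpp h12 m1 m2
    have h7 : PMw n p = ((c.sf.1 : ℝ) * n + c.sf.2 * p) * Real.log p := by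
      unfold PMw
      congr 1
      have h8 := hF4 hok (n := n) (p := p) (by omega) hpp.pos m1 m2
      rw [← Int.cast_natCast, h8]
      push_cast
      ring
    rw [h7]
    push_cast
    nlinarith
  refine h1.trans ?_
  rw [List.sum_map_add, List.sum_map_mul_left]
  have h2 : (L.map fun c => ∑ p ∈ PR (PMlo c) (PMhi c) n, Real.log (p : ℝ)).sum ≤
      Real.log 4 * (15 * n) := by
    rw [← hch]
    exact PM_theta n _ _
  have h3 := mul_le_mul_of_nonneg_left h2 hK
  linarith

/-- the bound of `PM_small` -/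
def smallB (n p : ℕ) : ℝ :=
  2 * (n : ℝ) * (if p ^ 2 ≤ 14 * n then 40 * Real.log (14 * n + 1) else 0) + 6 * (n : ℝ) * Real.log p +
      2 * ∑ i ∈ Finset.range (2 * n), Real.log ((padicNorm p ((i.factorial : ℕ) : ℚ) : ℚ) : ℝ)

/-- **the sum over the primes**, for an arbitrary function `N` -/
theorem sumN (L : List Cell) (hchk : PMchk 1 80 L = true) (hE5ok : L.all Cell.ok = true) (F : ℚ)
    (hF3 : (L.map Cell.lim).sum ≤ F) (hF4 : StF4) (hF5 : StF5) (hF6 : StF6) (hF7 : StF7)
    (K : ℝ) (hK : 0 ≤ K) (ε : ℝ) (hε : 0 < ε) : ∀ᶠ n : ℕ in atTop, ∀ N : ℕ → ℝ,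
    (∀ p : ℕ, p.Prime → 80 * p ≤ n → N p ≤ smallB n p) →
    (∀ c ∈ L, ∀ p : ℕ, p.Prime → 9 * n < p ^ 2 → c.u0 * n < p * c.v0 → p * c.v1 ≤ c.u1 * n →
      N p ≤ ((c.AB.1 : ℝ) / 2 * n + c.AB.2 * p + K) * Real.log p) →
    ∑ p ∈ (Finset.range (6 * n + 1)).filter Nat.Prime, N p ≤
      -(4 * (n : ℝ) ^ 2 * Real.log n) + ((F : ℝ) + 3303 / 1000 + ε) * (n : ℝ) ^ 2 := by
  classical
  -- the limit of the sum over the cells
  have hlim : Tendsto (fun n : ℕ => (L.map fun c => ∑ p ∈ PR (PMlo c) (PMhi c) n,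
        (((c.AB.1 : ℝ) / 2 + (c.sf.1 : ℝ)) * n + ((c.AB.2 + c.sf.2 : ℤ) : ℝ) * p) * Real.log p).sum /
        (n : ℝ) ^ 2) atTop (𝓝 (((L.map Cell.lim).sum : ℚ) : ℝ)) := by
    have h1 := PM_tendsto L (fun c n => (∑ p ∈ PR (PMlo c) (PMhi c) n,
        (((c.AB.1 : ℝ) / 2 + (c.sf.1 : ℝ)) * n + ((c.AB.2 + c.sf.2 : ℤ) : ℝ) * p) * Real.log p) /
        (n : ℝ) ^ 2) (fun c => ((c.lim : ℚ) : ℝ)) (by
      intro c hc
      have hok : c.ok = true := List.all_eq_true.1 hE5ok c hc
      have hpos : 0 < c.u0 ∧ 0 < c.v0 ∧ 0 < c.v1 ∧ c.u0 * c.v1 < c.u1 * c.v0 := by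
        have hok' := hok
        unfold Cell.ok at hok'
        simp only [Bool.and_eq_true, decide_eq_true_eq] at hok'
        tauto
      obtain ⟨p1, p2, p3, p4⟩ := hpos
      have hlo : 0 < PMlo c := by
        unfold PMlo
        have q1 : (0 : ℚ) < c.u0 := by exact_mod_cast p1
        have q2 : (0 : ℚ) < c.v0 := by exact_mod_cast p2
        positivity
      have hlh : PMlo c ≤ PMhi c := by
        unfold PMlo PMhi
        rw [div_le_div_iff₀ (by exact_mod_cast p2) (by exact_mod_cast p3)]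
        exact_mod_cast p4.le
      have hhi : PMhi c ≤ 6 := by
        have key : ∀ (L' : List Cell) (u v : ℕ), PMchk u v L' = true → ∀ c ∈ L', PMhi c ≤ 6 := by
          intro L'
          induction L' with
          | nil => intro u v _ c hc; exact absurd hc List.not_mem_nil
          | cons d l ih =>
            intro u v h c hc
            simp only [PMchk, Bool.and_eq_true, decide_eq_true_eq] at h
            rcases List.mem_cons.1 hc with rfl | hc
            · exact (PM_chain l c.u1 c.v1 h.2).1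
            · exact ih _ _ h.2 c hc
        exact key L 1 80 hchk c hc
      exact PM_F1 (PMlo c) (PMhi c) hlo hlh (hhi.trans (by norm_num)) _ _ _)
    have e1 : (L.map fun c => ((c.lim : ℚ) : ℝ)).sum = (((L.map Cell.lim).sum : ℚ) : ℝ) := by
      rw [Rat.cast_list_sum, List.map_map]
      rfl
    rw [e1] at h1
    refine h1.congr fun n => ?_
    rw [div_eq_mul_inv, ← List.sum_map_mul_right]
    simp only [div_eq_mul_inv]
  have hF3' : (((L.map Cell.lim).sum : ℚ) : ℝ) ≤ (F : ℝ) := (Rat.cast_le (K := ℝ)).2 hF3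
  have hε8 : 0 < ε / 8 := by positivity
  have ev1 := PM_ev hlim (ε / 8) hε8
  have ev6 := hF6 (ε / 8) hε8
  have ev7 := hF7 (ε / 8) hε8
  have ev9 : ∀ᶠ n : ℕ in atTop, K * (Real.log 4 * 15) ≤ ε / 8 * n := by
    have := (tendsto_natCast_atTop_atTop (R := ℝ)).const_mul_atTop hε8
    exact this.eventually_ge_atTop _
  unfold StF5 at hF5
  filter_upwards [ev1, hF5, ev6, ev7, ev9, eventually_ge_atTop 100000] with n g1 g5 g6 g7 g9 hn
  intro N hNs hNc
  have hn0 : (0 : ℝ) < n := by exact_mod_cast (by omega : 0 < n)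
  have hn1 : 1 ≤ n := by omega
  rw [← Finset.sum_filter_add_sum_filter_not _ (fun p => 80 * p ≤ n)]
  have e1 : ((Finset.range (6 * n + 1)).filter Nat.Prime).filter (fun p => 80 * p ≤ n) =
      (Finset.range (n + 1)).filter (fun p : ℕ => p.Prime ∧ 80 * p ≤ n) := by
    ext p
    simp only [Finset.mem_filter, Finset.mem_range]
    constructor
    · rintro ⟨⟨h1, h2⟩, h3⟩; exact ⟨by omega, h2, h3⟩
    · rintro ⟨h1, h2, h3⟩; exact ⟨⟨by omega, h2⟩, h3⟩
  have e2 : ((Finset.range (6 * n + 1)).filter Nat.Prime).filter (fun p => ¬ 80 * p ≤ n) =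
      PR (1 / 80) 6 n := by
    ext p
    unfold PR Pool.Agent.LZ.PR
    simp only [Finset.mem_filter, Finset.mem_range]
    constructor
    · rintro ⟨⟨h1, h2⟩, h3⟩
      refine ⟨by omega, h2, ?_, ?_⟩
      · have : (n : ℚ) < 80 * p := by exact_mod_cast (by omega : n < 80 * p)
        linarith
      · exact_mod_cast (by omega : p ≤ 6 * n)
    · rintro ⟨h1, h2, h3, h4⟩
      have h5 : n < 80 * p := by
        have : (n : ℚ) < 80 * p := by linarith
        exact_mod_cast this
      have h6 : p ≤ 6 * n := by exact_mod_cast h4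
      exact ⟨⟨by omega, h2⟩, by omega⟩
  rw [e1, e2]
  have hsmall : ∑ p ∈ (Finset.range (n + 1)).filter (fun p : ℕ => p.Prime ∧ 80 * p ≤ n), N p ≤
      (2 * (n : ℝ) * ∑ p ∈ (Finset.range (n + 1)).filter (fun p : ℕ => p.Prime ∧ p ^ 2 ≤ 14 * n),
          40 * Real.log (14 * n + 1) +
      6 * (n : ℝ) * ∑ p ∈ (Finset.range (n + 1)).filter (fun p : ℕ => p.Prime ∧ 80 * p ≤ n), Real.log p) +
      ∑ p ∈ (Finset.range (n + 1)).filter (fun p : ℕ => p.Prime ∧ 80 * p ≤ n),
        2 * ∑ i ∈ Finset.range (2 * n), Real.log ((padicNorm p ((i.factorial : ℕ) : ℚ) : ℚ) : ℝ) := by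
    calc _ ≤ ∑ p ∈ (Finset.range (n + 1)).filter (fun p : ℕ => p.Prime ∧ 80 * p ≤ n),
          (2 * (n : ℝ) * (if p ^ 2 ≤ 14 * n then 40 * Real.log (14 * n + 1) else 0) + 6 * (n : ℝ) * Real.log p +
          2 * ∑ i ∈ Finset.range (2 * n), Real.log ((padicNorm p ((i.factorial : ℕ) : ℚ) : ℚ) : ℝ)) := by
          apply Finset.sum_le_sum
          intro p hp
          rw [Finset.mem_filter] at hp
          exact hNs p hp.2.1 hp.2.2
      _ ≤ _ := by
          rw [Finset.sum_add_distrib, Finset.sum_add_distrib, ← Finset.mul_sum, ← Finset.mul_sum]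
          apply add_le_add_left
          apply add_le_add_left
          apply mul_le_mul_of_nonneg_left _ (by positivity)
          rw [← Finset.sum_filter]
          apply Finset.sum_le_sum_of_subset_of_nonneg
          · intro p hp
            simp only [Finset.mem_filter, Finset.mem_range] at hp ⊢
            exact ⟨hp.1.1, hp.1.2.1, hp.2⟩
          · intro p _ _
            have : 0 ≤ Real.log (14 * (n : ℝ) + 1) := Real.log_nonneg (by linarith)
            positivity
  have hlarge := large_sum L hchk hE5ok hF4 K hK n hn N hNc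
  rw [Finset.sum_add_distrib] at hlarge
  have hw : ∑ p ∈ PR (1 / 80) 6 n, PMw n p = ∑ p ∈ PR (1 / 80) 6 n,
      ((2 * ∑ i ∈ Finset.range (2 * n), (i / p) : ℕ) : ℝ) * Real.log p := rfl
  rw [hw] at hlarge
  have hfin : K * (Real.log 4 * (15 * n)) ≤ ε / 8 * (n : ℝ) ^ 2 := by
    have := mul_le_mul_of_nonneg_right g9 hn0.le
    nlinarith
  have hn2 : (0 : ℝ) < (n : ℝ) ^ 2 := by positivity
  have h10 : ((((L.map Cell.lim).sum : ℚ) : ℝ) + ε / 8) * (n : ℝ) ^ 2 ≤
      ((F : ℝ) + ε / 8) * (n : ℝ) ^ 2 := by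
    apply mul_le_mul_of_nonneg_right _ hn2.le
    linarith
  have htot : -(4 * (n : ℝ) ^ 2 * Real.log n) + (6 / 80 + 3228 / 1000 + (F : ℝ) + ε / 2) * (n : ℝ) ^ 2 ≤
      -(4 * (n : ℝ) ^ 2 * Real.log n) + ((F : ℝ) + 3303 / 1000 + ε) * (n : ℝ) ^ 2 := by
    have : (6 / 80 + 3228 / 1000 + (F : ℝ) + ε / 2) * (n : ℝ) ^ 2 ≤
        ((F : ℝ) + 3303 / 1000 + ε) * (n : ℝ) ^ 2 := by
      apply mul_le_mul_of_nonneg_right _ hn2.le
      linarith
    linarith
  refine le_trans ?_ htot
  linarith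

end

end Pool.Agent.TH896.Z3R
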