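import Pool.Agent.TH896.Z3R.Loc
import Pool.Agent.TH896.Z3R.Sum
import Pool.Agent.TH817.Z3.Z
import Pool.Agent.TH250.Z3.Arch

/-!
# Restricted denominators and `ζ(3)`: the main inequality
-/

set_option autoImplicit false

open Polynomial Pool.Agent.H337R2 Filter Topology Pool.Agent.TH817.Z3 Pool.Agent.TH615.Z3

namespace Pool.Agent.TH896.Z3R

noncomputable section

/-- the greatest common divisor of `q` and the cube of the product of the primes up to `y` -/
def G (y q : ℕ) : ℕ := Nat.gcd q (primorial y ^ 3)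

lemma G_pos (y q : ℕ) : 0 < G y q :=
  Nat.gcd_pos_of_pos_right _ (pow_pos (primorial_pos y) 3)

lemma G_ne (y q : ℕ) : G y q ≠ 0 := (G_pos y q).ne'

/-- exponent of `p` in `G y q` -/
def ex (y q p : ℕ) : ℕ := (G y q).factorization p

lemma cube_fac (y p : ℕ) : (primorial y ^ 3).factorization p ≤ 3 := by
  rw [Nat.factorization_pow]
  have h := (squarefree_primorial y).natFactorization_le_one p
  show 3 * (primorial y).factorization p ≤ 3
  omega

lemma ex_le (y q p : ℕ) : ex y q p ≤ 3 := by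
  refine le_trans ?_ (cube_fac y p)
  exact (Nat.factorization_le_iff_dvd (G_ne y q) (pow_ne_zero 3 (primorial_ne_zero y))).2
    (Nat.gcd_dvd_right _ _) p

lemma ex_dvd (y q p : ℕ) : p ^ ex y q p ∣ q :=
  (Nat.ordProj_dvd (G y q) p).trans (Nat.gcd_dvd_left _ _)

lemma ex_zero {y q p : ℕ} (hp : p.Prime) (h : y < p) : ex y q p = 0 := by
  unfold ex
  apply Nat.factorization_eq_zero_of_not_dvd
  intro hd
  have h1 : p ∣ primorial y ^ 3 := hd.trans (Nat.gcd_dvd_right _ _)
  have h2 := (hp.dvd_primorial_iff).1 (hp.dvd_of_dvd_pow h1)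
  omega

lemma log_G {y q n : ℕ} (hy : y ≤ 6 * n) : Real.log (G y q : ℝ) =
    ∑ p ∈ (Finset.range (6 * n + 1)).filter Nat.Prime, (ex y q p : ℝ) * Real.log p := by
  rw [Real.log_nat_eq_sum_factorization]
  rw [Finsupp.sum_of_support_subset _ (s := (Finset.range (6 * n + 1)).filter Nat.Prime)]
  · rfl
  · intro p hp
    rw [Nat.support_factorization] at hp
    have hpp := Nat.prime_of_mem_primeFactors hp
    rw [Finset.mem_filter, Finset.mem_range]
    refine ⟨?_, hpp⟩
    by_contra hlt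
    have h0 : ex y q p = 0 := ex_zero hpp (by omega)
    have h1 : p ∣ G y q := Nat.dvd_of_mem_primeFactors hp
    have h2 := (hpp.dvd_iff_one_le_factorization (G_ne y q)).1 h1
    unfold ex at h0
    omega
  · intro p _
    simp

/-- the cell bound with gain -/
def cellP (c : Cell) (K : ℝ) : Prop := ∀ n : ℕ, 1 ≤ n → ∀ p : ℕ, p.Prime → 9 * n < p ^ 2 →
    c.u0 * n < p * c.v0 → p * c.v1 ≤ c.u1 * n → ∀ (q : ℕ) (x : ℚ), QI q x → ∀ a : ℕ, a ≤ 3 →
    p ^ a ∣ q → (a = 0 ∨ c.full = true) →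
    ((padicNorm p ((q : ℚ) ^ (2 * n) * DET n x (2 * n)) : ℚ) : ℝ) ≤
      (p : ℝ) ^ ((c.AB.1 : ℝ) / 2 * n + c.AB.2 * p + K - 2 * n * a)

lemma cellP_mono (c : Cell) (K K' : ℝ) (h : K ≤ K') (hK : cellP c K) : cellP c K' := by
  intro n hn p hp h1 h2 h3 q x hx a ha hpa haf
  refine (hK n hn p hp h1 h2 h3 q x hx a ha hpa haf).trans ?_
  apply Real.rpow_le_rpow_of_exponent_le
  · exact_mod_cast hp.one_lt.le
  · linarith

theorem hE4 : StE4 :=
  E.E4_of (D.D3_of hC2) Pool.Agent.TH902.Z3.E1 Pool.Agent.TH902.Z3.E2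

lemma cellP_ex (c : Cell) (hc : c.ok = true) : ∃ K, cellP c K := by
  by_cases hf : c.full = true
  · obtain ⟨K, hK⟩ := E4R C.C1_pa Pool.Agent.TH902.Z3.E1 Pool.Agent.TH902.Z3.E2 c hc hf
    exact ⟨K, fun n hn p hp h1 h2 h3 q x hx a ha hpa _ => hK n hn p hp h1 h2 h3 q x hx a ha hpa⟩
  · obtain ⟨K, hK⟩ := hE4 c hc
    refine ⟨K, fun n hn p hp h1 h2 h3 q x hx a ha hpa haf => ?_⟩
    have ha0 : a = 0 := by
      rcases haf with h | h
      · exact h
      · exact absurd h hf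
    subst ha0
    have h4 := hK n hn p hp h1 h2 h3 q x hx
    rw [Nat.cast_zero, mul_zero, sub_zero]
    exact h4

/-- the `p`-adic part with gain, as a statement: `y ≤ (tn / td) n` -/
def StPR (tn td : ℕ) (P : ℝ) : Prop := ∀ ε : ℝ, 0 < ε → ∀ᶠ n : ℕ in atTop, ∀ (q y : ℕ) (x : ℚ),
  QI q x → td * y ≤ tn * n → DET n x (2 * n) ≠ 0 →
    ∑ p ∈ (Finset.range (6 * n + 1)).filter Nat.Prime,
      Real.log ((padicNorm p ((q : ℚ) ^ (2 * n) * DET n x (2 * n)) : ℚ) : ℝ) ≤
    -(4 * (n : ℝ) ^ 2 * Real.log n) + (P + ε) * (n : ℝ) ^ 2 - 2 * n * Real.log (G y q : ℝ)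

/-- **the `p`-adic part with gain** -/
theorem P_restr (cs : List Cell) (hchk : PMchk 1 80 cs = true) (hok : cs.all Cell.ok = true) (F : ℚ)
    (hF : (cs.map Cell.lim).sum ≤ F) (tn td : ℕ) (htd : 0 < td) (ht6 : tn ≤ 6 * td)
    (hfull : cs.all (fun c => c.full || decide (tn * c.v0 ≤ td * c.u0)) = true) :
    StPR tn td ((F : ℝ) + 3303 / 1000) := by
  classical
  intro ε hε
  obtain ⟨K, hK, hcell⟩ := PM_bound cs cellP cellP_mono
    (fun c hc => cellP_ex c (List.all_eq_true.1 hok c hc))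
  filter_upwards [sumN cs hchk hok F hF Pool.Agent.TH879.Z3.F4 Pool.Agent.TH879.Z3.F5
    Pool.Agent.TH879.Z3.F6 Pool.Agent.TH879.Z3.F7 K hK ε hε, eventually_ge_atTop 1] with n hn hn1
  intro q y x hx hy hD
  have hy6 : y ≤ 6 * n := by
    have h1 : td * y ≤ td * (6 * n) := by
      calc td * y ≤ tn * n := hy
        _ ≤ (6 * td) * n := Nat.mul_le_mul_right n ht6
        _ = td * (6 * n) := by ring
    exact Nat.le_of_mul_le_mul_left h1 htd
  have hqq : (0 : ℚ) < q := by exact_mod_cast hx.1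
  have hz : (q : ℚ) ^ (2 * n) * DET n x (2 * n) ≠ 0 := mul_ne_zero (pow_pos hqq _).ne' hD
  have hn0 : (0 : ℝ) ≤ n := by positivity
  have h := hn (fun p => Real.log ((padicNorm p ((q : ℚ) ^ (2 * n) * DET n x (2 * n)) : ℚ) : ℝ) +
    2 * n * ((ex y q p : ℝ) * Real.log p)) ?_ ?_
  · rw [Finset.sum_add_distrib, ← Finset.mul_sum, ← log_G hy6] at h
    linarith
  · -- small primes
    intro p hp _
    have hF : Fact p.Prime := ⟨hp⟩
    have hp0 : (0 : ℝ) < p := by exact_mod_cast hp.pos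
    have hlp : 0 ≤ Real.log p := Real.log_nonneg (by exact_mod_cast hp.one_lt.le)
    have hzp := PM_z_pos p hp _ hz
    have hpp : 0 < ∏ i ∈ Finset.range (2 * n), ((padicNorm p ((i.factorial : ℕ) : ℚ) : ℚ) : ℝ) ^ 2 :=
      Finset.prod_pos fun i _ => pow_pos (PM_fac_pos p _ hp) 2
    have hprod : Real.log (∏ i ∈ Finset.range (2 * n), ((padicNorm p ((i.factorial : ℕ) : ℚ) : ℚ) : ℝ) ^ 2)
        = 2 * ∑ i ∈ Finset.range (2 * n), Real.log ((padicNorm p ((i.factorial : ℕ) : ℚ) : ℚ) : ℝ) := by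
      rw [Real.log_prod (fun i _ => (pow_pos (PM_fac_pos p _ hp) 2).ne'), Finset.mul_sum]
      apply Finset.sum_congr rfl
      intro i _
      rw [Real.log_pow]
      norm_num
    have ha : (ex y q p : ℝ) ≤ 3 := by exact_mod_cast ex_le y q p
    unfold smallB
    by_cases h2 : p ^ 2 ≤ 14 * n
    · rw [if_pos h2]
      have h3 : ((padicNorm p ((q : ℚ) ^ (2 * n) * DET n x (2 * n)) : ℚ) : ℝ) ≤
          ((14 * (n : ℝ) + 1) ^ 40) ^ (2 * n) *
          ∏ i ∈ Finset.range (2 * n), ((padicNorm p ((i.factorial : ℕ) : ℚ) : ℚ) : ℝ) ^ 2 := by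
        have h4 := (Rat.cast_le (K := ℝ)).2
          (Pool.Agent.TH615.Z3.D4c_of Pool.Agent.TH986.Z3.C3 (p := p) hn1 q x hx)
        push_cast at h4
        exact h4
      have h5 := Real.log_le_log hzp h3
      rw [Real.log_mul (by positivity) hpp.ne', hprod, Real.log_pow, Real.log_pow] at h5
      have e1 : ((2 * n : ℕ) : ℝ) * (((40 : ℕ) : ℝ) * Real.log (14 * (n : ℝ) + 1)) =
          2 * (n : ℝ) * (40 * Real.log (14 * n + 1)) := by push_cast; ring
      rw [e1] at h5
      have h6 : 2 * (n : ℝ) * ((ex y q p : ℝ) * Real.log p) ≤ 6 * (n : ℝ) * Real.log p := by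
        have h7 : (ex y q p : ℝ) * Real.log p ≤ 3 * Real.log p :=
          mul_le_mul_of_nonneg_right ha hlp
        have h8 := mul_le_mul_of_nonneg_left h7 (by positivity : (0 : ℝ) ≤ 2 * n)
        linarith
      linarith
    · rw [if_neg h2]
      have h4' := D4mR C.C1_pa (p := p) hn1 (by omega) q x hx (ex y q p) (ex_le y q p) (ex_dvd y q p)
      have h3 : ((padicNorm p ((q : ℚ) ^ (2 * n) * DET n x (2 * n)) : ℚ) : ℝ) ≤
          ((p : ℝ) ^ (-(ex y q p : ℤ)) * (p : ℝ) ^ 3) ^ (2 * n) *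
          ∏ i ∈ Finset.range (2 * n), ((padicNorm p ((i.factorial : ℕ) : ℚ) : ℚ) : ℝ) ^ 2 := by
        have h4 := (Rat.cast_le (K := ℝ)).2 h4'
        push_cast at h4
        exact h4
      have h5 := Real.log_le_log hzp h3
      rw [Real.log_mul (by positivity) hpp.ne', hprod, Real.log_pow,
        Real.log_mul (by positivity) (by positivity), Real.log_pow, Real.log_zpow] at h5
      have e1 : ((2 * n : ℕ) : ℝ) * (((-(ex y q p : ℤ) : ℤ) : ℝ) * Real.log p +
          ((3 : ℕ) : ℝ) * Real.log p) =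
          6 * (n : ℝ) * Real.log p - 2 * n * ((ex y q p : ℝ) * Real.log p) := by
        push_cast; ring
      rw [e1] at h5
      linarith
  · -- cells
    intro c hc p hp h1 h2 h3
    have hp0 : (0 : ℝ) < p := by exact_mod_cast hp.pos
    have hzp := PM_z_pos p hp _ hz
    have haf : ex y q p = 0 ∨ c.full = true := by
      have h4 := List.all_eq_true.1 hfull c hc
      rw [Bool.or_eq_true, decide_eq_true_eq] at h4
      rcases h4 with h4 | h4
      · exact Or.inr h4
      · left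
        apply ex_zero hp
        have h5 : (tn * n) * c.v0 < (td * p) * c.v0 := by
          calc (tn * n) * c.v0 = (tn * c.v0) * n := by ring
            _ ≤ (td * c.u0) * n := Nat.mul_le_mul_right n h4
            _ = td * (c.u0 * n) := by ring
            _ < td * (p * c.v0) := Nat.mul_lt_mul_of_pos_left h2 htd
            _ = (td * p) * c.v0 := by ring
        have h6 := Nat.lt_of_mul_lt_mul_right h5
        exact Nat.lt_of_mul_lt_mul_left (lt_of_le_of_lt hy h6)
    have h5 := Real.log_le_log hzp (hcell c hc n hn1 p hp h1 h2 h3 q x hx (ex y q p) (ex_le y q p)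
      (ex_dvd y q p) haf)
    rw [Real.log_rpow hp0] at h5
    nlinarith

/-- `max (q / G) (exp (s y))` -/
def M (s : ℝ) (y q : ℕ) : ℝ := max ((q : ℝ) / (G y q : ℝ)) (Real.exp (s * y))

lemma M_ge_one {s : ℝ} (hs : 0 < s) (y q : ℕ) : 1 ≤ M s y q := by
  refine le_trans ?_ (le_max_right _ _)
  exact Real.one_le_exp (by positivity)

/-- no good approximation with a large denominator -/
theorem large_den {κ A P c μ s : ℝ} {tn td : ℕ} (hs : 0 < s) (htd : 0 < td)
    (hst : c * td ≤ s * tn) (hc : 1 ≤ c) (hc20 : c ≤ 20) (hcA : 2 * c < A - P)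
    (hκ : 0 < κ) (hμ : κ < μ * c) (hA : StAMg κ A) (hP : StPR tn td P)
    (hPl : StPl) (hH : StH6) (hZ : StZ1) :
    ∃ M0 : ℝ, 1 ≤ M0 ∧ ∀ (a : ℤ) (b y : ℕ), 1 ≤ b → M0 ≤ M s y b →
      ((M s y b) ^ μ)⁻¹ < |zr 3 - (a : ℝ) / b| := by
  have hc0 : 0 < c := by linarith
  obtain ⟨p0, hp0⟩ := hH
  obtain ⟨L0, hL0⟩ := hZ ((μ * c - κ) / κ) (div_pos (by linarith) hκ)
  have hev := hA.and (hP ((A - P - 2 * c) / 2) (by linarith))
  rw [eventually_atTop] at hev
  obtain ⟨n0, hn0⟩ := hev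
  refine ⟨Real.exp (20 * (|L0| + n0 + p0 + 1)) + 1, by linarith [Real.exp_pos (20 * (|L0| + n0 + p0 + 1))],
    fun a b y hb1 hMb => ?_⟩
  by_contra hcon
  push Not at hcon
  have hMR : Real.exp (20 * (|L0| + n0 + p0 + 1)) < M s y b := by linarith
  have hMpos : (0 : ℝ) < M s y b := (Real.exp_pos _).trans hMR
  set L : ℝ := Real.log (M s y b) with hL
  have hLbig : 20 * (|L0| + n0 + p0 + 1) < L := by
    rw [hL]
    exact (Real.lt_log_iff_exp_lt hMpos).2 hMR
  have hn0c : (0 : ℝ) ≤ n0 := Nat.cast_nonneg _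
  have hp0c : (0 : ℝ) ≤ p0 := Nat.cast_nonneg _
  have hL0c : (0 : ℝ) ≤ |L0| := abs_nonneg _
  have hL0d : L0 ≤ |L0| := le_abs_self _
  have hLpos : 0 < L := by linarith
  have hLL : |L0| + n0 + p0 + 1 < L / c := by
    rw [lt_div_iff₀ hc0]
    nlinarith
  obtain ⟨n, hnp, hmod, hnL, hnU⟩ := hL0 (L / c) (by linarith)
  have : Fact n.Prime := ⟨hnp⟩
  have hnR : |L0| + n0 + p0 + 1 < n := by linarith
  have hnn0 : n0 ≤ n := by
    have : (n0 : ℝ) ≤ n := by linarith
    exact_mod_cast this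
  have hnp0 : p0 ≤ n := by
    have : (p0 : ℝ) ≤ n := by linarith
    exact_mod_cast this
  have hn1 : 1 ≤ n := hnp.one_lt.le
  have hnpos : (0 : ℝ) < n := by linarith
  have hLc : L < c * n := by
    have h6 : L / c < n := hnL
    rw [div_lt_iff₀ hc0] at h6
    linarith
  have hy : td * y ≤ tn * n := by
    have h1 : Real.exp (s * y) ≤ M s y b := le_max_right _ _
    have h2 : s * (y : ℝ) ≤ L := (Real.le_log_iff_exp_le hMpos).2 h1
    have htdR : (0 : ℝ) < td := by exact_mod_cast htd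
    have h3 : s * ((td : ℝ) * y) ≤ s * (tn * n) := by
      calc s * ((td : ℝ) * y) = td * (s * y) := by ring
        _ ≤ td * (c * n) := mul_le_mul_of_nonneg_left (h2.trans hLc.le) htdR.le
        _ = (c * td) * n := by ring
        _ ≤ (s * tn) * n := mul_le_mul_of_nonneg_right hst hnpos.le
        _ = s * (tn * n) := by ring
    have h4 : (td : ℝ) * y ≤ tn * n := le_of_mul_le_mul_left h3 hs
    exact_mod_cast h4
  -- the reduced denominator
  have hbR : (0 : ℝ) < b := by exact_mod_cast hb1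
  have hGR : (0 : ℝ) < (G y b : ℝ) := by exact_mod_cast G_pos y b
  have hbG : Real.log b - Real.log (G y b : ℝ) ≤ L := by
    rw [← Real.log_div hbR.ne' hGR.ne', hL]
    exact Real.log_le_log (by positivity) (le_max_left _ _)
  -- the rational number
  set x : ℚ := (a : ℚ) / b with hx
  have hbq : (b : ℚ) ≠ 0 := by exact_mod_cast (by omega : b ≠ 0)
  have hxR : (x : ℝ) = (a : ℝ) / b := by rw [hx]; push_cast; rfl
  have hu : QI b x := ⟨by omega, a, by rw [hx]; field_simp⟩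
  have hDne : DET n x (2 * n) ≠ 0 := hp0 n hnp0 hnp hmod x
  obtain ⟨hAn, hPn⟩ := hn0 n hnn0
  -- the distance
  have hdist : |(x : ℝ) - zr 3| ≤ Real.exp (-(κ * n)) := by
    rw [abs_sub_comm, hxR]
    refine hcon.trans ?_
    have h1 : ((M s y b) ^ μ)⁻¹ = Real.exp (-(μ * L)) := by
      rw [Real.exp_neg, Real.rpow_def_of_pos hMpos, mul_comm]
    rw [h1]
    apply Real.exp_le_exp.2
    have h3 : (n : ℝ) ≤ (1 + (μ * c - κ) / κ) * (L / c) := hnU
    have h4 : κ * n ≤ κ * ((1 + (μ * c - κ) / κ) * (L / c)) :=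
      mul_le_mul_of_nonneg_left h3 hκ.le
    have h5 : κ * ((1 + (μ * c - κ) / κ) * (L / c)) = μ * L := by
      field_simp
      ring
    linarith
  -- archimedean bound
  have hArch := hAn x hdist hDne
  have hP1 := hPn b y x hu hy hDne
  -- product formula
  set z : ℚ := (b : ℚ) ^ (2 * n) * DET n x (2 * n) with hz
  have hz0 : z ≠ 0 := mul_ne_zero (pow_ne_zero _ hbq) hDne
  set S : Finset ℕ := (Finset.range (6 * n + 1)).filter Nat.Prime with hS
  have hpf := Pool.Agent.H336R2.HD.A5_prod_formula z hz0 S (fun p hp => (Finset.mem_filter.1 hp).2)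
    (fun p => ((padicNorm p z : ℚ) : ℝ)) (fun p _ => le_rfl) (fun p hp hpS => by
      rw [hS, Finset.mem_filter, Finset.mem_range] at hpS
      have h1 : 6 * n < p := by
        by_contra h; exact hpS ⟨by omega, hp⟩
      exact hPl b x hu n hn1 p hp h1)
  have hpos : ∀ p ∈ S, 0 < ((padicNorm p z : ℚ) : ℝ) := by
    intro p hp
    have : Fact p.Prime := ⟨(Finset.mem_filter.1 hp).2⟩
    have h1 : 0 < padicNorm p z := lt_of_le_of_ne (padicNorm.nonneg _) (Ne.symm (padicNorm.nonzero hz0))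
    exact_mod_cast h1
  have hprodpos : 0 < ∏ p ∈ S, ((padicNorm p z : ℚ) : ℝ) := Finset.prod_pos hpos
  have hzabs : 0 < |(z : ℝ)| := abs_pos.2 (by exact_mod_cast hz0)
  have hlog := Real.log_nonneg hpf
  rw [Real.log_mul hzabs.ne' hprodpos.ne', Real.log_prod (fun p hp => (hpos p hp).ne')] at hlog
  have hzlog : Real.log |(z : ℝ)| = 2 * n * Real.log b + Real.log |((DET n x (2 * n) : ℚ) : ℝ)| := by
    rw [hz]
    push_cast
    rw [abs_mul, Real.log_mul (abs_pos.2 (by positivity)).ne' (abs_pos.2 (by exact_mod_cast hDne)).ne',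
      abs_of_pos (by positivity), Real.log_pow]
    push_cast
    ring
  have h1 : 2 * n * (Real.log b - Real.log (G y b : ℝ)) ≤ 2 * c * (n : ℝ) ^ 2 := by
    calc 2 * n * (Real.log b - Real.log (G y b : ℝ)) ≤ 2 * n * (c * n) := by
          apply mul_le_mul_of_nonneg_left _ (by positivity)
          linarith
      _ = _ := by ring
  have h2 : (0 : ℝ) < (n : ℝ) ^ 2 := by positivity
  nlinarith

end

end Pool.Agent.TH896.Z3R
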